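import Mathlib

namespace Pool.Agent.Results.MP_6f70ff_gt.Main

open Filter Topology SimpleGraph

/-- `N` is a `k`-net: maximal among the sets whose distinct points are at distance at least `k`. -/
def IsNet {V : Type} (G : SimpleGraph V) (k : ℕ) (N : Set V) : Prop :=
  Maximal (fun S : Set V => ∀ u ∈ S, ∀ v ∈ S, u ≠ v → k ≤ G.dist u v) N

/-- The `k`-net graph on `N`. -/
def netGraph {V : Type} (G : SimpleGraph V) (k : ℕ) (N : Set V) : SimpleGraph N where
  Adj u v := 0 < G.dist u v ∧ G.dist u v ≤ 2 * k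
  symm := ⟨fun u v h => by rwa [SimpleGraph.dist_comm]⟩
  loopless := ⟨fun u h => by simp at h⟩

/-- `f` is a `C`-rough isometry for the graph distances. -/
def Rough {V W : Type} (G : SimpleGraph V) (H : SimpleGraph W) (C : ℝ) (f : V → W) : Prop :=
  (∀ x y, C⁻¹ * (H.dist (f x) (f y) : ℝ) - C ≤ (G.dist x y : ℝ) ∧
    (G.dist x y : ℝ) ≤ C * (H.dist (f x) (f y) : ℝ) + C) ∧
  ∀ y, ∃ x, (H.dist (f x) y : ℝ) < C

theorem walkUp {V : Type} (H : SimpleGraph V) (g : ℤ → V) (hg : ∀ i, H.Adj (g i) (g (i + 1)))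
    (i : ℤ) (n : ℕ) : ∃ p : H.Walk (g i) (g (i + n)), p.length = n := by
  induction n with
  | zero => exact ⟨(Walk.nil).copy rfl (by simp), by simp⟩
  | succ n ih =>
    obtain ⟨p, hp⟩ := ih
    refine ⟨(p.concat (hg (i + n))).copy rfl (by push_cast; ring_nf), by simp [hp]⟩

theorem walkAny {V : Type} (H : SimpleGraph V) (g : ℤ → V) (hg : ∀ i, H.Adj (g i) (g (i + 1)))
    (i j : ℤ) : ∃ p : H.Walk (g i) (g j), p.length = (i - j).natAbs := by
  rcases le_total i j with h | h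
  · obtain ⟨p, hp⟩ := walkUp H g hg i (i - j).natAbs
    exact ⟨p.copy rfl (by congr 1; omega), by simp [hp]⟩
  · obtain ⟨p, hp⟩ := walkUp H g hg j (i - j).natAbs
    exact ⟨p.reverse.copy (by congr 1; omega) rfl, by simp [hp]⟩

theorem level {V : Type} (H : SimpleGraph V) (B : ℤ → V → Prop)
    (hB : ∀ i u v, H.Adj u v → B i u → B (i + 1) v) {u v : V} (p : H.Walk u v) :
    ∀ i, B i u → B (i + p.length) v := by
  induction p with
  | nil => intro i h; simpa using h
  | cons h p ih =>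
    intro i hi
    have := ih (i + 1) (hB _ _ _ h hi)
    simp only [Walk.length_cons]
    push_cast
    rwa [show i + ((p.length : ℤ) + 1) = i + 1 + p.length by ring]

def L : SimpleGraph ℤ where
  Adj a b := a + 1 = b ∨ b + 1 = a
  symm := ⟨fun _ _ h => h.symm⟩
  loopless := ⟨fun a h => by omega⟩

theorem Lconn : L.Connected := by
  refine ⟨fun a b => ?_⟩
  obtain ⟨p, -⟩ := walkAny L id (fun i => Or.inl rfl) a b
  exact ⟨p⟩

theorem Ldist (a b : ℤ) : L.dist a b = (a - b).natAbs := by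
  apply le_antisymm
  · obtain ⟨p, hp⟩ := walkAny L id (fun i => Or.inl rfl) a b
    exact hp ▸ dist_le p
  · obtain ⟨p, hp⟩ := Lconn.exists_walk_length_eq_dist a b
    have h1 := level L (fun i u => u ≤ i) (fun i u v h hu => by
      rcases h with h | h <;> omega) p a le_rfl
    have h2 := level L (fun i u => u ≤ i) (fun i u v h hu => by
      rcases h with h | h <;> omega) p.reverse b le_rfl
    simp only [Walk.length_reverse] at h2
    omega

theorem near {k : ℕ} (hk : 1 ≤ k) {N : Set ℤ} (hN : IsNet L k N) (x : ℤ) :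
    ∃ m ∈ N, x - k < m ∧ m < x + k := by
  by_contra hc
  push Not at hc
  have hx : x ∈ N := by
    refine hN.2 (y := insert x N) ?_ (Set.subset_insert _ _) (Set.mem_insert _ _)
    intro u hu v hv huv
    rcases hu with rfl | hu <;> rcases hv with rfl | hv
    · exact absurd rfl huv
    · have := hc v hv
      rw [Ldist]; omega
    · have := hc u hu
      rw [Ldist]; omega
    · exact hN.1 u hu v hv huv
  have := hc x hx
  omega

theorem chain {k : ℕ} (hk : 1 ≤ k) {N : Set ℤ} (hN : IsNet L k N) :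
    ∃ f : ℤ → N, (∀ i, (f i : ℤ) < f (i + 1) ∧ (f (i + 1) : ℤ) ≤ f i + 2 * k) ∧
      (∀ i, 0 ≤ i → ∀ v ∈ N, v ≤ f i + 2 * k → v ≤ f (i + 1)) ∧
      (∀ i, i < 0 → ∀ u ∈ N, u < f i → u + 2 * k < f (i + 1)) := by
  have hr : ∀ n : N, ∃ m : N, (n : ℤ) < m ∧ (m : ℤ) ≤ n + 2 * k ∧
      ∀ v ∈ N, v ≤ n + 2 * k → v ≤ m := by
    intro n
    obtain ⟨m, hm, h1, h2⟩ := near hk hN (n + k)
    obtain ⟨M, hM, hM2⟩ := Int.exists_greatest_of_bdd (P := fun v => v ∈ N ∧ v ≤ n + 2 * k)
      ⟨n + 2 * k, fun z hz => hz.2⟩ ⟨m, hm, by omega⟩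
    refine ⟨⟨M, hM.1⟩, ?_, hM.2, fun v hv h => hM2 v ⟨hv, h⟩⟩
    have := hM2 m ⟨hm, by omega⟩
    show (n : ℤ) < M
    omega
  have hl : ∀ n : N, ∃ m : N, (m : ℤ) < n ∧ (n : ℤ) ≤ m + 2 * k ∧
      ∀ u ∈ N, u < m → u + 2 * k < n := by
    intro n
    obtain ⟨m, hm, h1, h2⟩ := near hk hN (n - k)
    obtain ⟨M, hM, hM2⟩ := Int.exists_least_of_bdd (P := fun v => v ∈ N ∧ n ≤ v + 2 * k)
      ⟨n - 2 * k, fun z hz => by have := hz.2; omega⟩ ⟨m, hm, by omega⟩
    refine ⟨⟨M, hM.1⟩, ?_, hM.2, fun v hv h => ?_⟩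
    · have := hM2 m ⟨hm, by omega⟩
      show M < (n : ℤ)
      omega
    · by_contra hc
      have := hM2 v ⟨hv, by omega⟩
      have h' : v < M := h
      omega
  choose r hr using hr
  choose l hl using hl
  obtain ⟨m0, hm0, -⟩ := near hk hN 0
  let n0 : N := ⟨m0, hm0⟩
  let f : ℤ → N := fun i => if 0 ≤ i then r^[i.toNat] n0 else l^[(-i).toNat] n0
  have hp : ∀ i, 0 ≤ i → f (i + 1) = r (f i) := by
    intro i hi
    have h1 : 0 ≤ i + 1 := by omega
    have h2 : (i + 1).toNat = i.toNat + 1 := by omega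
    simp only [f, if_pos hi, if_pos h1, h2, Function.iterate_succ_apply']
  have hn : ∀ i, i < 0 → f i = l (f (i + 1)) := by
    intro i hi
    have h1 : ¬ 0 ≤ i := by omega
    by_cases h3 : 0 ≤ i + 1
    · have h4 : i = -1 := by omega
      subst h4
      simp [f]
    · have h2 : (-i).toNat = (-(i + 1)).toNat + 1 := by omega
      simp only [f, if_neg h1, if_neg h3, h2, Function.iterate_succ_apply']
  refine ⟨f, fun i => ?_, fun i hi => ?_, fun i hi => ?_⟩
  · rcases le_or_gt 0 i with hi | hi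
    · rw [hp i hi]; exact ⟨(hr _).1, (hr _).2.1⟩
    · rw [hn i hi]; exact ⟨(hl _).1, (hl _).2.1⟩
  · rw [hp i hi]; exact (hr _).2.2
  · rw [hn i hi]; exact (hl _).2.2

theorem key {k : ℕ} (hk : 1 ≤ k) {N : Set ℤ} (hN : IsNet L k N) :
    (netGraph L k N).Connected ∧ ∀ C : ℝ, 1 < C → ∃ f, Rough L (netGraph L k N) C f := by
  obtain ⟨f, h1, h2, h3⟩ := chain hk hN
  have adj : ∀ u v : N, (netGraph L k N).Adj u v ↔
      (u : ℤ) ≠ v ∧ (u : ℤ) ≤ v + 2 * k ∧ (v : ℤ) ≤ u + 2 * k := by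
    intro u v
    show 0 < L.dist u v ∧ L.dist u v ≤ 2 * k ↔ _
    rw [Ldist]; omega
  have fa : ∀ i, (netGraph L k N).Adj (f i) (f (i + 1)) := fun i => by
    rw [adj]; have := h1 i; omega
  have mono : StrictMono fun i => (f i : ℤ) := strictMono_int_of_lt_succ fun i => (h1 i).1
  have grow : ∀ (n : ℕ) i, (f i : ℤ) + n ≤ f (i + n) := by
    intro n i
    induction n with
    | zero => simp
    | succ n ih =>
      have := (h1 (i + n)).1
      push_cast
      rw [← add_assoc i]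
      omega
  have dens : ∀ y : N, ∃ i, y = f i ∨ (netGraph L k N).Adj (f i) y := by
    intro y
    obtain ⟨i, hi, hi2⟩ := Int.exists_greatest_of_bdd (P := fun i => (f i : ℤ) ≤ y)
      ⟨((y : ℤ) - f 0).natAbs, fun z hz => by
        by_contra hc
        have := grow z.toNat 0
        rw [show (0 : ℤ) + z.toNat = z by omega] at this
        omega⟩
      ⟨-(((y : ℤ) - f 0).natAbs : ℤ), by
        have := grow ((y : ℤ) - f 0).natAbs (-(((y : ℤ) - f 0).natAbs : ℤ))
        rw [neg_add_cancel] at this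
        omega⟩
    refine ⟨i, ?_⟩
    by_cases hy : y = f i
    · exact Or.inl hy
    · right
      rw [adj]
      have h4 : ¬ (f (i + 1) : ℤ) ≤ y := fun h => by have := hi2 _ h; omega
      have h5 : (f i : ℤ) ≠ y := fun h => hy (Subtype.ext h.symm)
      have := h1 i
      omega
  have conn : (netGraph L k N).Connected := by
    have rr : ∀ y : N, (netGraph L k N).Reachable (f 0) y := by
      intro y
      obtain ⟨i, hi⟩ := dens y
      obtain ⟨p, -⟩ := walkAny _ f fa 0 i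
      rcases hi with rfl | hi
      · exact ⟨p⟩
      · exact Reachable.trans ⟨p⟩ hi.reachable
    haveI : Nonempty N := ⟨f 0⟩
    exact ⟨fun a b => (rr a).symm.trans (rr b)⟩
  have low : ∀ i j, j ≤ i + 1 + (netGraph L k N).dist (f i) (f j) := by
    intro i j
    obtain ⟨p, hp⟩ := conn.exists_walk_length_eq_dist (f i) (f j)
    have := level (netGraph L k N)
      (fun i u => (0 < i → (u : ℤ) ≤ f i) ∧ (i ≤ 0 → (u : ℤ) < f i)) (fun i u v h hu => by
        rw [adj] at h
        refine ⟨fun hi => ?_, fun hi => ?_⟩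
        · refine h2 i (by omega) v v.2 ?_
          rcases lt_or_ge 0 i with h5 | h5
          · have := hu.1 h5; omega
          · have := hu.2 h5; omega
        · have := h3 i (by omega) u u.2 (hu.2 (by omega))
          omega) p (i + 1) ⟨fun _ => (h1 i).1.le, fun _ => (h1 i).1⟩
    rw [hp] at this
    apply mono.le_iff_le.1
    rcases lt_or_ge 0 (i + 1 + (netGraph L k N).dist (f i) (f j)) with h5 | h5
    · exact this.1 h5
    · exact (this.2 h5).le
  refine ⟨conn, fun C hC => ⟨f, fun x y => ?_, fun y => ?_⟩⟩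
  · have up : (netGraph L k N).dist (f x) (f y) ≤ L.dist x y := by
      obtain ⟨p, hp⟩ := walkAny _ f fa x y
      rw [Ldist, ← hp]; exact dist_le p
    have dn : L.dist x y ≤ (netGraph L k N).dist (f x) (f y) + 1 := by
      have a1 := low x y
      have a2 := low y x
      rw [SimpleGraph.dist_comm] at a2
      rw [Ldist]; omega
    have up' : ((netGraph L k N).dist (f x) (f y) : ℝ) ≤ L.dist x y := by exact_mod_cast up
    have dn' : (L.dist x y : ℝ) ≤ (netGraph L k N).dist (f x) (f y) + 1 := by exact_mod_cast dn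
    have h0 : (0 : ℝ) ≤ (netGraph L k N).dist (f x) (f y) := Nat.cast_nonneg _
    have hi : C⁻¹ ≤ 1 := inv_le_one_of_one_le₀ hC.le
    constructor <;> nlinarith
  · obtain ⟨i, hi⟩ := dens y
    refine ⟨i, lt_of_le_of_lt ?_ hC⟩
    rcases hi with rfl | hi
    · simp
    · rw [dist_eq_one_iff_adj.2 hi]; simp

theorem lower {W : Type} (H : SimpleGraph W) (C : ℝ) (hC : 0 < C) (f : ℤ → W)
    (hf : Rough L H C f) : 1 ≤ C := by
  by_contra hc
  push Not at hc
  have h1 : 0 < 1 - C ^ 2 := by nlinarith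
  obtain ⟨n, hn⟩ := exists_nat_gt ((C ^ 3 + C) / (1 - C ^ 2))
  rw [div_lt_iff₀ h1] at hn
  obtain ⟨a, b⟩ := hf.1 0 n
  have e : L.dist 0 n = n := by rw [Ldist]; omega
  rw [e] at a b
  have a' : (H.dist (f 0) (f n) : ℝ) ≤ C * (n + C) := by
    have := mul_le_mul_of_nonneg_left (sub_le_iff_le_add.1 a) hC.le
    rwa [← mul_assoc, mul_inv_cancel₀ hC.ne', one_mul] at this
  have := mul_le_mul_of_nonneg_left a' hC.le
  nlinarith

theorem netex {k : ℕ} (hk : 1 ≤ k) : IsNet L k {x | (k : ℤ) ∣ x} := by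
  refine ⟨fun u hu v hv huv => ?_, fun S hS hle x hx => ?_⟩
  · rw [Ldist]
    have h : (k : ℤ) ∣ u - v := dvd_sub hu hv
    have := Int.natAbs_le_of_dvd_ne_zero h (sub_ne_zero.2 huv)
    simpa using this
  · by_contra hc
    have hm : (k : ℤ) * (x / k) ∈ S := hle (dvd_mul_right _ _)
    have hne : x ≠ k * (x / k) := fun h => hc (h ▸ dvd_mul_right _ _)
    have h1 := hS x hx _ hm hne
    rw [Ldist] at h1
    have h2 := Int.emod_add_mul_ediv x k
    have h3 := Int.emod_nonneg x (b := k) (by omega)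
    have h4 := Int.emod_lt_of_pos x (b := k) (by omega)
    omega

theorem result : ∃ (V : Type) (G : SimpleGraph V), G.Connected ∧ Infinite V ∧
    (∀ v, (G.neighborSet v).Finite) ∧ (∀ u v, ∃ φ : G ≃g G, φ u = v) ∧
    (∀ k, 1 ≤ k → ∃ N, IsNet G k N) ∧
    (∀ k, 1 ≤ k → ∀ N, IsNet G k N → (netGraph G k N).Connected ∧
      IsGLB {C : ℝ | 0 < C ∧ ∃ f, Rough G (netGraph G k N) C f} 1) ∧
    ∀ N : ℕ → Set V, (∀ k, 1 ≤ k → IsNet G k (N k)) →
      Tendsto (fun k => sInf {C : ℝ | 0 < C ∧ ∃ f, Rough G (netGraph G k (N k)) C f})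
        atTop (𝓝 1) := by
  have main : ∀ k, 1 ≤ k → ∀ N, IsNet L k N → (netGraph L k N).Connected ∧
      IsGLB {C : ℝ | 0 < C ∧ ∃ f, Rough L (netGraph L k N) C f} 1 := by
    intro k hk N hN
    refine ⟨(key hk hN).1, fun C hC => ?_, fun b hb => ?_⟩
    · obtain ⟨h0, f, hf⟩ := hC
      exact lower _ C h0 f hf
    · exact le_of_forall_gt_imp_ge_of_dense fun C hC =>
        hb ⟨by linarith, (key hk hN).2 C hC⟩
  refine ⟨ℤ, L, Lconn, inferInstance, fun v => ?_, fun u v => ?_, fun k hk => ⟨_, netex hk⟩,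
    main, fun N hN => ?_⟩
  · refine (Set.toFinite {v + 1, v - 1}).subset fun w hw => ?_
    have : v + 1 = w ∨ w + 1 = v := hw
    simp only [Set.mem_insert_iff, Set.mem_singleton_iff]
    omega
  · refine ⟨⟨Equiv.addRight (v - u), fun {a b} => ?_⟩, by simp⟩
    show (a + (v - u) + 1 = b + (v - u) ∨ b + (v - u) + 1 = a + (v - u)) ↔ (a + 1 = b ∨ b + 1 = a)
    omega
  · refine tendsto_const_nhds.congr' ?_
    filter_upwards [eventually_ge_atTop 1] with k hk
    exact ((main k hk _ (hN k hk)).2.csInf_eq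
      ⟨2, by norm_num, (key hk (hN k hk)).2 2 (by norm_num)⟩).symm

end Pool.Agent.Results.MP_6f70ff_gt.Main
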